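import Pool.Agent.W5h36.EL.Bridge

/-!
# 2-descent decides almost all locally soluble quadratic twists: constant differences

Let `f k = g + a k ∈ ℤ[x]` be at least two irreducible polynomials of even degree, which differ by
constants (`∏ k, f k = Q (g)`, `Q` a product of linear factors).  Suppose that for all `i` there is an
automorphism of the algebraic closure of `ℚ` which fixes a zero of some `f k`, but no zero of `f i`.
Then for almost all of the squarefree `d` for which the curve `C d : d * y ^ 2 = ∏ k, F k (x, w)` has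
points everywhere locally no covering `F k (x, w) = δ k * y k ^ 2` of `C d` has points everywhere
locally.
-/

namespace Pool.Agent.Results.MP_d37f77_nt.ConstantDifferences

open Finset Polynomial
open Pool.Agent.W5h36.Twists

/-- `σ` fixes a zero of `h` -/
def FixesZero (σ : AlgebraicClosure ℚ ≃ₐ[ℚ] AlgebraicClosure ℚ) (h : ℤ[X]) : Prop :=
  ∃ θ : AlgebraicClosure ℚ, aeval θ h = 0 ∧ σ θ = θ

theorem result (K : Type) [Fintype K] [DecidableEq K] (f : K → ℤ[X]) (hf : Adm f)
    (hr : 2 ≤ Fintype.card K) (hc : ∀ k l, ∃ a : ℤ, f k - f l = C a)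
    (hσ : ∀ i, ∃ σ : AlgebraicClosure ℚ ≃ₐ[ℚ] AlgebraicClosure ℚ,
      (∃ k, FixesZero σ (f k)) ∧ ¬ FixesZero σ (f i)) : Good f := by
  classical
  refine W5h36.EL.comp f hr hf.1 hf.2.1 hf.2.2 hc fun i => ?_
  obtain ⟨σ, ⟨k, hk⟩, hi⟩ := hσ i
  refine ⟨σ, fun h => ?_, fun h => hi (mem_filter.1 h).2⟩
  have h1 : k ∈ W5h36.EL.SQ f σ := mem_filter.2 ⟨mem_univ _, hk⟩
  rw [h] at h1
  exact notMem_empty _ h1

end Pool.Agent.Results.MP_d37f77_nt.ConstantDifferences
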