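import Pool.Agent.W5h36.EL.Bridge

/-!
# 2-descent decides almost all locally soluble quadratic twists: independent splitting fields

Let `f k ∈ ℤ[x]` (`k ∈ K`) be at least three polynomials, irreducible over `ℚ`, of even degrees, with
linearly disjoint splitting fields.  If `r / 2 ^ (r - 1) < 1 - ∏ x k`, where `r = #K` and `x k` is the
density of the primes modulo which `f k` has no zero, in particular if all the degrees are at most
`2 ^ (r - 2)` or if the Galois groups are the symmetric groups, then for almost all of the squarefree
`d` for which the curve `C d : d * y ^ 2 = ∏ k, F k (x, w)` has points everywhere locally no covering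
`F k (x, w) = δ k * y k ^ 2` of `C d` has points everywhere locally.
-/

namespace Pool.Agent.Results.MP_d37f77_nt.IndependentFactors

open Finset Polynomial
open Pool.Agent.W5h36.Twists

theorem result (K : Type) [Fintype K] [DecidableEq K] (f : K → ℤ[X]) (hf : Adm f)
    (hr : 3 ≤ Fintype.card K) :
    -- the condition on the densities
    (Independent f → ∀ x : K → ℝ, (∀ k, HasDensity (f k) 0 (x k)) →
      (Fintype.card K : ℝ) / 2 ^ (Fintype.card K - 1) < 1 - ∏ k, x k → Good f) ∧
    -- small degrees, arbitrary Galois groups
    (Independent f → (∀ k, (f k).natDegree ≤ 2 ^ (Fintype.card K - 2)) → Good f) ∧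
    -- symmetric Galois groups, arbitrary degrees
    (Symmetric f → Good f) := by
  refine ⟨fun hI x hx hc => ?_, fun hI hd => ?_, fun hS => ?_⟩
  · exact W5h36.EL.ind_many f hr hf.1 hf.2.1 hf.2.2 hI x
      (fun k => tendsto_density (f k) 0 (x k) (hx k)) hc
  · exact W5h36.EL.ind_deg f hr hf.1 hf.2.1 hf.2.2 hI hd
  · exact W5h36.EL.sn f (by omega) hf.1 hf.2.1 (fun h => by omega) hS

end Pool.Agent.Results.MP_d37f77_nt.IndependentFactors
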