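import Pool.Agent.W5h36.EL.Bridge

/-!
# 2-descent decides almost all locally soluble quadratic twists: quadratic factors

Let `f k ∈ ℤ[x]` be pairwise non-associated irreducible quadratic polynomials, not all of them with
the same splitting field.  If there are only two different splitting fields, suppose that
`Res (f i, f j) * disc (f i) * disc (f j)` is not a square for all `i`, `j` such that the splitting
fields of `f i` and `f j` are different.  Then for almost all of the squarefree `d` for which the
curve `C d : d * y ^ 2 = ∏ k, F k (x, w)` has points everywhere locally no covering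
`F k (x, w) = δ k * y k ^ 2` of `C d` has points everywhere locally.  For at least three different
splitting fields the bounds are `O (X * (log X) ^ (-1/4 + ε))` for the number of the `d` with a
locally soluble covering, and `X * (log X) ^ (-1/8 - ε)` from below for the number of the `d` such
that `C d` has points everywhere locally.
-/

namespace Pool.Agent.Results.MP_d37f77_nt.QuadraticFactors

open Finset Polynomial Filter
open Pool.Agent.W5h36.Twists

/-- the discriminant of a quadratic polynomial -/
def disc (h : ℤ[X]) : ℤ := (h.coeff 1) ^ 2 - 4 * h.coeff 2 * h.coeff 0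

/-- the resultant of two quadratic polynomials -/
def resultant (h g : ℤ[X]) : ℤ :=
  (h.coeff 2 * g.coeff 0 - g.coeff 2 * h.coeff 0) ^ 2 -
    (h.coeff 2 * g.coeff 1 - g.coeff 2 * h.coeff 1) *
      (h.coeff 1 * g.coeff 0 - g.coeff 1 * h.coeff 0)

/-- there are at least three different splitting fields -/
def ThreeFields {K : Type} (f : K → ℤ[X]) : Prop :=
  ∃ i j k, ¬ IsSquare (disc (f i) * disc (f j)) ∧ ¬ IsSquare (disc (f i) * disc (f k)) ∧
    ¬ IsSquare (disc (f j) * disc (f k))

theorem result (K : Type) [Fintype K] [DecidableEq K] (f : K → ℤ[X]) (hf : Adm f)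
    (h2 : ∀ k, (f k).natDegree = 2) (hK : ∃ i j, ¬ IsSquare (disc (f i) * disc (f j))) :
    ((ThreeFields f ∨ ∀ i j, ¬ IsSquare (disc (f i) * disc (f j)) →
      ¬ IsSquare (resultant (f i) (f j) * (disc (f i) * disc (f j)))) → Good f) ∧
    (ThreeFields f → ∀ ε : ℝ, 0 < ε →
      (∃ C : ℝ, ∀ X : ℕ, 3 ≤ X →
        ({d : ℤ | d.natAbs ≤ X ∧ Squarefree d ∧ SelmerNonempty f d}.ncard : ℝ) ≤
          C * X * (Real.log X) ^ (-1 / 4 + ε)) ∧
      ∃ c : ℝ, 0 < c ∧ ∀ᶠ X : ℕ in atTop, c * X * (Real.log X) ^ (-1 / 8 - ε) ≤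
        ({d : ℤ | d.natAbs ≤ X ∧ Squarefree d ∧ LocSol f d}.ncard : ℝ)) := by
  refine ⟨fun h => ?_, fun ⟨i, j, k, hij, hik, hjk⟩ =>
    (W5h36.EL.quad_main f h2 hf.1 hf.2.2 i j k hij hik hjk).2⟩
  by_cases h3 : ThreeFields f
  · obtain ⟨i, j, k, hij, hik, hjk⟩ := h3
    exact (W5h36.EL.quad_main f h2 hf.1 hf.2.2 i j k hij hik hjk).1
  · have hR := h.resolve_left h3
    obtain ⟨i, j, hij⟩ := hK
    refine W5h36.EL.quad_two f h2 hf.1 hf.2.2 i j hij (fun k => ?_) hR
    by_contra hk
    push Not at hk
    exact h3 ⟨k, i, j, hk.1, hk.2, hij⟩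

end Pool.Agent.Results.MP_d37f77_nt.QuadraticFactors
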