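import Pool.Agent.W5h36.EL.Bridge

/-!
# 2-descent decides almost all locally soluble quadratic twists: two factors

Let `f i, f j ∈ ℤ[x]` be two polynomials, irreducible over `ℚ`, of even degrees, with linearly
disjoint splitting fields, and let `x k`, `y k`, `z k` be the densities of the primes modulo which
`f k` has no, exactly one, at least two zeros.  If
`(y i * z j + z i * y j) * log (3 / 2) + z i * z j * log 2 < (x i * y j + y i * x j) * log 2`, in
particular if the Galois groups are the symmetric groups and the degrees are at least `4`, then for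
almost all of the squarefree `d` for which the curve `C d : d * y ^ 2 = F i (x, w) * F j (x, w)` has
points everywhere locally no covering `F k (x, w) = δ k * y k ^ 2` (`k = i, j`) of `C d` has points
everywhere locally.
-/

namespace Pool.Agent.Results.MP_d37f77_nt.TwoFactors

open Finset Polynomial
open Pool.Agent.W5h36.Twists

theorem result (K : Type) [Fintype K] [DecidableEq K] (f : K → ℤ[X]) (hf : Adm f)
    (hr : Fintype.card K = 2) :
    (Independent f → ∀ i j : K, i ≠ j → ∀ x y z : K → ℝ,
      (∀ k, HasDensity (f k) 0 (x k)) → (∀ k, HasDensity (f k) 1 (y k)) →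
      (∀ k, x k + y k + z k = 1) →
      (y i * z j + z i * y j) * Real.log (3 / 2) + z i * z j * Real.log 2 <
        (x i * y j + y i * x j) * Real.log 2 → Good f) ∧
    (Symmetric f → (∀ k, 4 ≤ (f k).natDegree) → Good f) := by
  classical
  refine ⟨fun hI i j hij x y z hx hy hxyz hc => ?_, fun hS h4 => ?_⟩
  · have h0 : ∀ k, Filter.Tendsto (W401.Cheb.M fun p => if W5h36.EL.cl (W5h36.EL.om (f k) p) = 0
        then (1 : ℝ) else 0) Filter.atTop (nhds (x k)) := by
      intro k
      have h1 := tendsto_density (f k) 0 (x k) (hx k)
      simp only [W5h36.EL.cl_zero]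
      exact h1
    have h1 : ∀ k, Filter.Tendsto (W401.Cheb.M fun p => if W5h36.EL.cl (W5h36.EL.om (f k) p) = 1
        then (1 : ℝ) else 0) Filter.atTop (nhds (y k)) := by
      intro k
      have h1 := tendsto_density (f k) 1 (y k) (hy k)
      simp only [W5h36.EL.cl_one]
      exact h1
    have h2 : ∀ k, Filter.Tendsto (W401.Cheb.M fun p => if W5h36.EL.cl (W5h36.EL.om (f k) p) = 2
        then (1 : ℝ) else 0) Filter.atTop (nhds (z k)) := by
      intro k
      have h3 := W5h36.EL.tM_add (W5h36.EL.tM_add W401.Cheb.M_one
        (W5h36.EL.tM_smul (-1) (h0 k))) (W5h36.EL.tM_smul (-1) (h1 k))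
      have h4 : z k = 1 + -1 * x k + -1 * y k := by
        have := hxyz k
        linarith
      rw [h4]
      refine h3.congr fun N => ?_
      congr 1
      funext p
      have h5 : ∀ c : Fin 3, c = 0 ∨ c = 1 ∨ c = 2 := by decide
      rcases h5 (W5h36.EL.cl (W5h36.EL.om (f k) p)) with h | h | h <;> rw [h]
      · rw [if_pos rfl, if_neg (by decide), if_neg (by decide)]
        norm_num
      · rw [if_neg (by decide), if_pos rfl, if_neg (by decide)]
        norm_num
      · rw [if_neg (by decide), if_neg (by decide), if_pos rfl]
        norm_num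
    refine W5h36.EL.ind_pair f hr hf.1 hf.2.1 hf.2.2 hI i j hij
      (fun k => ![x k, y k, z k]) (fun k c => ?_) ?_
    · fin_cases c
      · exact h0 k
      · exact h1 k
      · exact h2 k
    · simp only [Matrix.cons_val_zero, Matrix.cons_val_one, Matrix.cons_val]
      linarith
  · exact W5h36.EL.sn f (by omega) hf.1 hf.2.1 (fun _ => h4) hS

end Pool.Agent.Results.MP_d37f77_nt.TwoFactors
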